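import Pool.Agent.Helper22.G4.St.Z3

/-!
# Recognizing graphs of 4-polytopes is complete for the existential theory of the reals

The definitions in the statement are those of `Pool.Agent.Helper89.Defs` (decision problems,
polynomial-time many-one reductions, the existential theory of the reals, edge lists) and
`Pool.Agent.Helper22.G4.GraphDefs` (graphs of polytopes, the problem GRAPH4).

Outline of the proof. Membership: a graph is the graph of a 4-polytope iff there are points of
four-space, linear functionals for all vertices and edges, and convex combinations for all pairs of
non-adjacent vertices (`AlgCond`); this is an existential formula of polynomial size.

Hardness: a formula is turned into a system of quadratic equations, then into a system of additions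
and multiplications with prescribed order of the solutions (`nfQ`), then into the combinatorial
type of a polytope with prescribed two-dimensional faces (`NF.data`): a Minkowski-sum construction
whose pages carry the slopes of the values, with gadgets in which one slope is forgotten. The graph
(`Data.graph`) is obtained from the polytope by stacking a vertex on every facet, two more vertices
at every prescribed polygon, and then vertices of degree four on many simplices. In any 4-polytope
with this graph the vertices of degree four can be removed; then a parity argument shows that the
prescribed polygons are flat faces, so the edge directions satisfy the equations.
-/

namespace Pool.Agent.Results.MP_ac8dca_lc.Graph4Complete

/-- GRAPH4 is complete for the existential theory of the reals. -/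
theorem result : Pool.Agent.Helper89.ExistsRComplete Pool.Agent.Helper22.G4.GRAPH4 :=
  Pool.Agent.Helper22.G4.graph4_complete

end Pool.Agent.Results.MP_ac8dca_lc.Graph4Complete
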